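import Pool.Agent.H705.RO.Stm4

/-! # EVD: union bound over moduli, classes and a grid, and Borel-Cantelli (helper389 for helper705) -/

set_option autoImplicit false

namespace Pool.Agent.H389.RO

open MeasureTheory ProbabilityTheory Filter Topology Finset
open Pool.Agent.H705.RO

lemma exp_neg_nat_le (n : ℕ) : Real.exp (-(n : ℝ)) ≤ (1 / 2 : ℝ) ^ n := by
  have h1 : Real.exp (-(n : ℝ)) = (Real.exp (-1)) ^ n := by
    rw [← Real.exp_nat_mul]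
    congr 1
    ring
  rw [h1]
  apply pow_le_pow_left₀ (Real.exp_pos _).le
  rw [Real.exp_neg, one_div]
  apply inv_anti₀ (by norm_num)
  have := Real.add_one_le_exp (1 : ℝ)
  linarith

/-- the sum over the zeros as a sum over pairs -/
lemma bz_eq (d : ℕ → ℕ) (γ : ℕ → ℕ → ℕ → ℝ) (f : ℕ → ℕ → ℕ → ℕ) (y : ℕ → ℝ × ℝ) (q : ℕ)
    (b : ℕ → ℂ) (s : Finset ℕ) (x : ℝ) : bz d γ f y q b s x =
    ∑ z ∈ s ×ˢ range (d q), 2 * ((b z.2 * ((x : ℂ) ^ (rh (γ q z.2 z.1)) / rh (γ q z.2 z.1)) /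
      (d q : ℂ)) * Complex.exp (2 * (Real.pi : ℂ) * Complex.I *
        (((y (f q z.2 z.1)).2 : ℝ) : ℂ))).re := by
  unfold bz
  rw [Finset.sum_product, Finset.sum_div]
  refine Finset.sum_congr rfl fun n _ => ?_
  rw [Finset.sum_div]
  refine Finset.sum_congr rfl fun i _ => ?_
  unfold tz
  rw [div_mul_eq_mul_div, Complex.div_natCast_re]
  ring

lemma norm_c_le (γ : ℝ) (b : ℂ) (hb : ‖b‖ ≤ 1) (x : ℝ) (hx : 0 < x) (n : ℕ) :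
    ‖b * ((x : ℂ) ^ (rh γ) / rh γ) / (n : ℂ)‖ ≤ Real.sqrt x / (‖rh γ‖ * n) := by
  have h1 : ‖(x : ℂ) ^ (rh γ)‖ = Real.sqrt x := by
    rw [Complex.norm_cpow_eq_rpow_re_of_pos hx, Real.sqrt_eq_rpow]
    congr 1
    unfold rh
    simp
  rw [norm_div, norm_mul, norm_div, h1, Complex.norm_natCast, ← div_div]
  have h2 : 0 ≤ Real.sqrt x / ‖rh γ‖ := by positivity
  have h3 : ‖b‖ * (Real.sqrt x / ‖rh γ‖) ≤ Real.sqrt x / ‖rh γ‖ := mul_le_of_le_one_left h2 hb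
  exact div_le_div_of_nonneg_right h3 (Nat.cast_nonneg n)

/-- one tuple -/
lemma one (hHOD : P_HOD) {Ω : Type} [MeasurableSpace Ω] {P : Measure Ω} {X : ℕ → Ω → ℝ × ℝ}
    (hM : Model P X) {d : ℕ → ℕ} {γ : ℕ → ℕ → ℕ → ℝ} {f : ℕ → ℕ → ℕ → ℕ} {K : ℝ} (hK : 0 < K)
    (hS : ∀ (j l q M : ℕ) (x : ℝ), 1 ≤ q → q ≤ 2 ^ (j + 1) → 1 ≤ d q → 1 ≤ x →
      M ≤ 2 ^ (l + 1) - 1 →
      ∑ n ∈ Ico (2 ^ l - 1) M, ∑ i ∈ range (d q), (2 * Real.sqrt x / (‖rh (γ q i n)‖ * d q)) ^ 2 ≤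
        K * x * ((j : ℝ) + l + 4) ^ 2 / (2 ^ l * d q)) (hf : InjD d f) (b : ℕ → ℂ)
    (hb : ∀ i, ‖b i‖ ≤ 1) (j l q M : ℕ) (x : ℝ) (hq1 : 1 ≤ q) (hq2 : q ≤ 2 ^ (j + 1))
    (hd : 1 ≤ d q) (hx : 1 ≤ x) (hM2 : M ≤ 2 ^ (l + 1) - 1) :
    P {ω | Real.sqrt (16 * K * x * ((j : ℝ) + l + 4) ^ 3 / (2 ^ l * d q)) ≤
      |bz d γ f (fun n => X n ω) q b (Ico (2 ^ l - 1) M) x|} ≤
      ENNReal.ofReal (2 * (1 / 2 : ℝ) ^ (8 * (j + l + 4))) := by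
  have hdr : (0 : ℝ) < d q := by exact_mod_cast hd
  have hx0 : 0 < x := by linarith
  have hjl : (0 : ℝ) < (j : ℝ) + l + 4 := by positivity
  set lam := Real.sqrt (16 * K * x * ((j : ℝ) + l + 4) ^ 3 / (2 ^ l * d q)) with hlam
  set v := K * x * ((j : ℝ) + l + 4) ^ 2 / (2 ^ l * d q) with hv
  have hv0 : 0 < v := by positivity
  have hlam0 : 0 < lam := Real.sqrt_pos.2 (by positivity)
  have hinj : Set.InjOn (fun z : ℕ × ℕ => f q z.2 z.1)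
      ((Ico (2 ^ l - 1) M ×ˢ range (d q) : Finset (ℕ × ℕ)) : Set (ℕ × ℕ)) := by
    intro z hz z' hz' hzz
    rw [Finset.mem_coe, Finset.mem_product, Finset.mem_range] at hz hz'
    obtain ⟨h1, h2⟩ := hf q z.2 z.1 z'.2 z'.1 hz.2 hz'.2 hzz
    exact Prod.ext h2 h1
  have hsum : 4 * ∑ z ∈ Ico (2 ^ l - 1) M ×ˢ range (d q),
      ‖b z.2 * ((x : ℂ) ^ (rh (γ q z.2 z.1)) / rh (γ q z.2 z.1)) / (d q : ℂ)‖ ^ 2 ≤ v := by
    refine le_trans ?_ (hS j l q M x hq1 hq2 hd hx hM2)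
    rw [Finset.sum_product, Finset.mul_sum]
    refine Finset.sum_le_sum fun n _ => ?_
    rw [Finset.mul_sum]
    refine Finset.sum_le_sum fun i _ => ?_
    have h1 := norm_c_le (γ q i n) (b i) (hb i) x hx0 (d q)
    have h2 := pow_le_pow_left₀ (norm_nonneg _) h1 2
    have h3 : (2 * Real.sqrt x / (‖rh (γ q i n)‖ * d q)) ^ 2 =
        4 * (Real.sqrt x / (‖rh (γ q i n)‖ * d q)) ^ 2 := by ring
    rw [h3]
    linarith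
  have hmain := hHOD Ω P X hM (Ico (2 ^ l - 1) M ×ˢ range (d q)) (fun z => f q z.2 z.1)
    (fun z => b z.2 * ((x : ℂ) ^ (rh (γ q z.2 z.1)) / rh (γ q z.2 z.1)) / (d q : ℂ)) lam v hinj
    hlam0 hv0 hsum
  have hset : {ω | lam ≤ |bz d γ f (fun n => X n ω) q b (Ico (2 ^ l - 1) M) x|} =
      {ω | lam ≤ |∑ z ∈ Ico (2 ^ l - 1) M ×ˢ range (d q),
        2 * ((b z.2 * ((x : ℂ) ^ (rh (γ q z.2 z.1)) / rh (γ q z.2 z.1)) / (d q : ℂ)) *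
          Complex.exp (2 * (Real.pi : ℂ) * Complex.I *
            (((X (f q z.2 z.1) ω).2 : ℝ) : ℂ))).re|} := by
    ext ω
    rw [Set.mem_setOf_eq, Set.mem_setOf_eq, bz_eq]
  rw [hset]
  refine hmain.trans (ENNReal.ofReal_le_ofReal ?_)
  have hexp : lam ^ 2 / (2 * v) = ((8 * (j + l + 4) : ℕ) : ℝ) := by
    rw [hlam, Real.sq_sqrt (by positivity), hv]
    push_cast
    field_simp
    ring
  rw [hexp]
  have := exp_neg_nat_le (8 * (j + l + 4))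
  linarith

lemma count_le (j l : ℕ) :
    ((2 ^ (j + 1) * (2 ^ (j + 1) * ((2 ^ (j + 1) * 8 ^ (j + l) + 1) * (2 ^ l + 1))) : ℕ) : ℝ) *
      (2 * (1 / 2 : ℝ) ^ (8 * (j + l + 4))) ≤ (1 / 2 : ℝ) ^ j * (1 / 2 : ℝ) ^ l := by
  have h1 : 2 ^ (j + 1) * 8 ^ (j + l) + 1 ≤ 2 ^ (4 * j + 3 * l + 2) := by
    have e : 2 ^ (j + 1) * 8 ^ (j + l) = 2 ^ (4 * j + 3 * l + 1) := by
      rw [show 8 = 2 ^ 3 by norm_num, ← pow_mul, ← pow_add]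
      congr 1
      ring
    rw [e, show 4 * j + 3 * l + 2 = (4 * j + 3 * l + 1) + 1 by ring, pow_succ 2 (4 * j + 3 * l + 1)]
    have : 1 ≤ 2 ^ (4 * j + 3 * l + 1) := Nat.one_le_two_pow
    omega
  have h2 : 2 ^ l + 1 ≤ 2 ^ (l + 1) := by
    rw [pow_succ]
    have : 1 ≤ 2 ^ l := Nat.one_le_two_pow
    omega
  have h3 : 2 ^ (j + 1) * (2 ^ (j + 1) * ((2 ^ (j + 1) * 8 ^ (j + l) + 1) * (2 ^ l + 1))) ≤
      2 ^ (6 * j + 4 * l + 5) := by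
    calc 2 ^ (j + 1) * (2 ^ (j + 1) * ((2 ^ (j + 1) * 8 ^ (j + l) + 1) * (2 ^ l + 1))) ≤
        2 ^ (j + 1) * (2 ^ (j + 1) * (2 ^ (4 * j + 3 * l + 2) * 2 ^ (l + 1))) := by
          gcongr
      _ = 2 ^ (6 * j + 4 * l + 5) := by
          rw [← pow_add, ← pow_add, ← pow_add]
          congr 1
          ring
  have h4 : ((2 ^ (j + 1) * (2 ^ (j + 1) * ((2 ^ (j + 1) * 8 ^ (j + l) + 1) * (2 ^ l + 1))) : ℕ) : ℝ)
      ≤ ((2 ^ (6 * j + 4 * l + 5) : ℕ) : ℝ) := Nat.cast_le.2 h3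
  refine (mul_le_mul_of_nonneg_right h4 (by positivity)).trans ?_
  have h5 : (1 / 2 : ℝ) ^ (8 * (j + l + 4)) = (1 / 2 : ℝ) ^ (6 * j + 4 * l + 5) * (1 / 2 : ℝ) ^ j *
      (1 / 2 : ℝ) ^ l * ((1 / 2 : ℝ) * (1 / 2 : ℝ) ^ (j + 3 * l + 26)) := by
    rw [← pow_succ', ← pow_add, ← pow_add, ← pow_add]
    congr 1
    ring
  have h6 : (2 : ℝ) ^ (6 * j + 4 * l + 5) * (1 / 2 : ℝ) ^ (6 * j + 4 * l + 5) = 1 := by
    rw [← mul_pow]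
    norm_num
  have h7 : (1 / 2 : ℝ) ^ (j + 3 * l + 26) ≤ 1 := pow_le_one₀ (by norm_num) (by norm_num)
  rw [h5]
  push_cast
  calc (2 : ℝ) ^ (6 * j + 4 * l + 5) * (2 * ((1 / 2 : ℝ) ^ (6 * j + 4 * l + 5) * (1 / 2 : ℝ) ^ j *
      (1 / 2 : ℝ) ^ l * ((1 / 2 : ℝ) * (1 / 2 : ℝ) ^ (j + 3 * l + 26)))) =
      ((2 : ℝ) ^ (6 * j + 4 * l + 5) * (1 / 2 : ℝ) ^ (6 * j + 4 * l + 5)) *
      ((1 / 2 : ℝ) ^ j * (1 / 2 : ℝ) ^ l) * (1 / 2 : ℝ) ^ (j + 3 * l + 26) := by ring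
    _ ≤ ((2 : ℝ) ^ (6 * j + 4 * l + 5) * (1 / 2 : ℝ) ^ (6 * j + 4 * l + 5)) *
      ((1 / 2 : ℝ) ^ j * (1 / 2 : ℝ) ^ l) * 1 := by
        refine mul_le_mul_of_nonneg_left h7 (by positivity)
    _ = (1 / 2 : ℝ) ^ j * (1 / 2 : ℝ) ^ l := by rw [h6]; ring

theorem T_EVD (hHOD : P_HOD) (hSQD : P_SQD) : P_EVD := by
  classical
  intro c hc
  obtain ⟨K, hK, hSQ⟩ := hSQD c hc
  refine ⟨4 * Real.sqrt K, by positivity, ?_⟩
  intro Ω _ P X hM d γ f b hd hO hf hb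
  have hS := hSQ d γ hO
  have hD2 : (4 * Real.sqrt K) ^ 2 = 16 * K := by
    rw [mul_pow, Real.sq_sqrt hK.le]
    norm_num
  let E : ℕ → ℕ → ℕ × ℕ × ℕ × ℕ → Set Ω := fun j l t =>
    {ω | (1 ≤ t.1 ∧ t.1 ≤ 2 ^ (j + 1) ∧ t.2.2.2 ≤ 2 ^ (l + 1) - 1 ∧
        (1 : ℝ) ≤ (t.2.2.1 : ℝ) / 8 ^ (j + l)) ∧
      Real.sqrt (16 * K * ((t.2.2.1 : ℝ) / 8 ^ (j + l)) * ((j : ℝ) + l + 4) ^ 3 /
        (2 ^ l * d t.1)) ≤
      |bz d γ f (fun n => X n ω) t.1 (b t.1 t.2.1) (Ico (2 ^ l - 1) t.2.2.2)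
        ((t.2.2.1 : ℝ) / 8 ^ (j + l))|}
  let T : ℕ → ℕ → Finset (ℕ × ℕ × ℕ × ℕ) := fun j l =>
    Icc 1 (2 ^ (j + 1)) ×ˢ (range (2 ^ (j + 1)) ×ˢ
      (range (2 ^ (j + 1) * 8 ^ (j + l) + 1) ×ˢ Icc (2 ^ l - 1) (2 ^ (l + 1) - 1)))
  have hE : ∀ j l t, P (E j l t) ≤ ENNReal.ofReal (2 * (1 / 2 : ℝ) ^ (8 * (j + l + 4))) := by
    intro j l t
    by_cases hcond : 1 ≤ t.1 ∧ t.1 ≤ 2 ^ (j + 1) ∧ t.2.2.2 ≤ 2 ^ (l + 1) - 1 ∧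
        (1 : ℝ) ≤ (t.2.2.1 : ℝ) / 8 ^ (j + l)
    · refine (measure_mono ?_).trans (one hHOD hM hK hS hf (b t.1 t.2.1) (hb t.1 t.2.1) j l t.1
        t.2.2.2 ((t.2.2.1 : ℝ) / 8 ^ (j + l)) hcond.1 hcond.2.1 (hd _ hcond.1) hcond.2.2.2
        hcond.2.2.1)
      intro ω hω
      exact hω.2
    · have hempty : E j l t = ∅ := by
        apply Set.eq_empty_of_forall_notMem
        rintro ω ⟨h, _⟩
        exact hcond h
      rw [hempty, measure_empty]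
      exact zero_le
  have hcardT : ∀ j l, (T j l).card =
      2 ^ (j + 1) * (2 ^ (j + 1) * ((2 ^ (j + 1) * 8 ^ (j + l) + 1) * (2 ^ l + 1))) := by
    intro j l
    show (Icc 1 (2 ^ (j + 1)) ×ˢ (range (2 ^ (j + 1)) ×ˢ
      (range (2 ^ (j + 1) * 8 ^ (j + l) + 1) ×ˢ Icc (2 ^ l - 1) (2 ^ (l + 1) - 1)))).card = _
    rw [card_product, card_product, card_product, Nat.card_Icc, card_range, card_range,
      Nat.card_Icc]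
    have h1 : 1 ≤ 2 ^ l := Nat.one_le_two_pow
    have h2 : 2 ^ (l + 1) - 1 + 1 - (2 ^ l - 1) = 2 ^ l + 1 := by
      rw [pow_succ]
      omega
    rw [h2, Nat.add_sub_cancel]
  let B : ℕ × ℕ → Set Ω := fun x => ⋃ t ∈ T x.1 x.2, E x.1 x.2 t
  have hB : ∀ x, P (B x) ≤ ENNReal.ofReal ((1 / 2 : ℝ) ^ x.1 * (1 / 2 : ℝ) ^ x.2) := by
    rintro ⟨j, l⟩
    refine (measure_biUnion_finset_le _ _).trans ?_
    refine (Finset.sum_le_card_nsmul _ _ _ fun t _ => hE j l t).trans ?_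
    rw [nsmul_eq_mul, ← ENNReal.ofReal_natCast, ← ENNReal.ofReal_mul (Nat.cast_nonneg _)]
    apply ENNReal.ofReal_le_ofReal
    show ((T j l).card : ℝ) * (2 * (1 / 2 : ℝ) ^ (8 * (j + l + 4))) ≤
      (1 / 2 : ℝ) ^ j * (1 / 2 : ℝ) ^ l
    rw [hcardT]
    exact count_le j l
  have hs : Summable (fun x : ℕ × ℕ => (1 / 2 : ℝ) ^ x.1 * (1 / 2 : ℝ) ^ x.2) := by
    have h1 : Summable (fun n : ℕ => (1 / 2 : ℝ) ^ n) :=
      summable_geometric_of_lt_one (by norm_num) (by norm_num)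
    exact Summable.mul_of_nonneg h1 h1 (fun n => by positivity) (fun n => by positivity)
  have hsum : ∑' x, P (B x) ≠ ⊤ :=
    ne_top_of_le_ne_top hs.tsum_ofReal_ne_top (ENNReal.tsum_le_tsum hB)
  filter_upwards [ae_finite_setOfPred_mem hsum] with ω hω
  obtain ⟨K', hK'⟩ := (hω.image (fun x : ℕ × ℕ => x.1)).bddAbove
  refine ⟨K' + 1, fun j hj l q r i M x hq1 hq2 hrq hx hx1 hx2 hM1 hM2 => ?_⟩
  by_contra hcon
  rw [not_le, hD2] at hcon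
  have hxone : (1 : ℝ) ≤ (i : ℝ) / 8 ^ (j + l) := by
    rw [← hx]
    refine le_trans ?_ hx1
    exact one_le_pow₀ (by norm_num)
  have hile : i ≤ 2 ^ (j + 1) * 8 ^ (j + l) := by
    rw [hx, div_le_iff₀ (by positivity)] at hx2
    exact_mod_cast hx2
  have hmem : (j, l) ∈ {x | ω ∈ B x} := by
    show ω ∈ ⋃ t ∈ T j l, E j l t
    rw [Set.mem_iUnion₂]
    refine ⟨(q, r, i, M), ?_, ⟨hq1, hq2, hM2, hxone⟩, ?_⟩
    · show (q, r, i, M) ∈ Icc 1 (2 ^ (j + 1)) ×ˢ (range (2 ^ (j + 1)) ×ˢ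
        (range (2 ^ (j + 1) * 8 ^ (j + l) + 1) ×ˢ Icc (2 ^ l - 1) (2 ^ (l + 1) - 1)))
      rw [mem_product, mem_product, mem_product, mem_Icc, mem_range, mem_range, mem_Icc]
      exact ⟨⟨hq1, hq2⟩, lt_of_lt_of_le hrq hq2, Nat.lt_succ_of_le hile, hM1, hM2⟩
    · rw [hx] at hcon
      exact hcon.le
  have hle : j ≤ K' := hK' (Set.mem_image_of_mem (fun x : ℕ × ℕ => x.1) hmem)
  omega

end Pool.Agent.H389.RO
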